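import Pool.Agent.Work.MP_15e198_al.Hedge.Main

namespace Pool.Agent.Results.MP_15e198_al.LengthProfiles

open Pool.Agent.Work.MP_15e198_al
open scoped ENNReal

/-- A family of elements of the free group of rank `r ≥ 1` with prescribed reduced lengths `ℓ i`
that freely generates a subgroup exists if and only if the sum of `1 / N(r, ℓ i)` is at most `1`. -/
theorem result (r : ℕ) (hr : 1 ≤ r) (ι : Type) (ℓ : ι → ℕ) :
    (∃ g : ι → FreeGroup (Fin r), (∀ i, FreeGroup.norm (g i) = ℓ i) ∧
      Function.Injective (FreeGroup.lift g)) ↔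
    ∑' i, ((maxFree r (ℓ i) : ℝ≥0∞))⁻¹ ≤ 1 :=
  kraft hr ℓ

end Pool.Agent.Results.MP_15e198_al.LengthProfiles
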